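import Pool.Agent.MP_3ee8cb_gt.D3FL.HHAD
import Pool.Agent.MP_3ee8cb_gt.D3.Top

/-! The logarithm of a space of nonpositive curvature. -/

namespace Pool.Agent.MP_3ee8cb_gt.D3H0

open D3 D3FL Set Filter Topology
open CR (Met UT Riem dd MinP)
open LV (QP)
open scoped RealInnerProductSpace

theorem mono_of {F : ℝ → ℝ} {x y : ℝ} (hxy : x ≤ y)
    (h : ∀ s ∈ Icc x y, ∃ d, HasDerivAt F d s ∧ 0 ≤ d) : F x ≤ F y := by
  have hm : MonotoneOn F (Icc x y) := by
    refine monotoneOn_of_deriv_nonneg (convex_Icc x y) ?_ ?_ ?_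
    · intro s hs
      obtain ⟨d, hd, -⟩ := h s hs
      exact hd.continuousAt.continuousWithinAt
    · intro s hs
      obtain ⟨d, hd, -⟩ := h s (interior_subset hs)
      exact hd.differentiableAt.differentiableWithinAt
    · intro s hs
      obtain ⟨d, hd, h0⟩ := h s (interior_subset hs)
      rwa [hd.deriv]
  exact hm (left_mem_Icc.2 hxy) (right_mem_Icc.2 hxy) hxy

/-- Growth of the square norm of a solution which vanishes at the origin. -/
theorem grow {n p q : ℝ → ℝ} {L : ℝ} (hn : ∀ s, HasDerivAt n (2 * p s) s)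
    (hp : ∀ s, ∃ d, HasDerivAt p d s ∧ q s ≤ d)
    (hq : ∀ s l, 0 ≤ q s - 2 * l * p s + l ^ 2 * n s) (n0 : n 0 = 0) (p0 : p 0 = 0)
    (hL : Tendsto (fun s => n s / s ^ 2) (𝓝[>] 0) (𝓝 L)) : L ≤ n 1 := by
  have l1 : Tendsto (fun s => p s - n s / s) (𝓝[>] 0) (𝓝 0) := by
    obtain ⟨d, hd, -⟩ := hp 0
    have a1 : Tendsto p (𝓝[>] 0) (𝓝 (p 0)) := hd.continuousAt.tendsto.mono_left nhdsWithin_le_nhds
    have a2 := (hasDerivAt_iff_tendsto_slope.1 (hn 0)).mono_left (nhdsGT_le_nhdsNE 0)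
    have a3 := a1.sub a2
    rw [p0, mul_zero, sub_zero] at a3
    refine a3.congr fun s => ?_
    rw [slope_def_field, n0, sub_zero, sub_zero]
  have h1 : ∀ y, 0 < y → 0 ≤ p y - n y / y := fun y hy => by
    refine le_of_tendsto l1 ?_
    filter_upwards [Ioo_mem_nhdsGT hy] with x hx
    refine mono_of (F := fun s => p s - n s / s) hx.2.le fun s hs => ?_
    have s0 : 0 < s := hx.1.trans_le hs.1
    obtain ⟨d, hd, hle⟩ := hp s
    refine ⟨_, hd.sub ((hn s).div (hasDerivAt_id s) s0.ne'), ?_⟩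
    have h2 := hq s s⁻¹
    have e : d - (2 * p s * s - n s * 1) / s ^ 2 =
        d - q s + (q s - 2 * s⁻¹ * p s + s⁻¹ ^ 2 * n s) := by
      field_simp
      ring
    change 0 ≤ d - (2 * p s * s - n s * 1) / s ^ 2
    rw [e]
    linarith
  refine le_of_tendsto hL ?_
  filter_upwards [Ioo_mem_nhdsGT (zero_lt_one' ℝ)] with x hx
  have := mono_of (F := fun s => n s / s ^ 2) hx.2.le fun s hs => by
    have s0 : 0 < s := hx.1.trans_le hs.1
    refine ⟨_, (hn s).div (hasDerivAt_pow 2 s) (pow_pos s0 2).ne', ?_⟩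
    have e : (2 * p s * s ^ 2 - n s * (((2 : ℕ) : ℝ) * s ^ (2 - 1))) / (s ^ 2) ^ 2 =
        2 * (p s - n s / s) / s ^ 2 := by
      push_cast
      field_simp
    rw [e]
    exact div_nonneg (mul_nonneg zero_le_two (h1 s s0)) (sq_nonneg s)
  simpa using this

variable {m : MF}

theorem exp0 (o : m.OK) (j : m.Jac) (u : m.Up 0) (y b e : V) : ‖e‖ ≤ ‖m.J (y, b) (0, e) 1‖ := by
  have z0 : fderiv ℝ (m.Z 0) (y, b) (0, e) = (0, e) := by
    have h : m.Z 0 = id := funext o.zero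
    rw [h, fderiv_id]
    rfl
  have e0 : m.J (y, b) (0, e) 0 = 0 := by simp [MF.J, z0, MF.hor]
  have e1 : m.J' (y, b) (0, e) 0 = e := by simp [MF.J', z0, MF.ver]
  have sk : ∀ s a c, ⟪m.w (y, b) s a, c⟫ = -⟪a, m.w (y, b) s c⟫ := fun s a c => o.skew _ _ a c
  have d1 := j.d1 (y, b) (0, e)
  have d2 := j.d2 (y, b) (0, e)
  set J := m.J (y, b) (0, e)
  set J' := m.J' (y, b) (0, e)
  have key := grow (n := fun s => ⟪J s, J s⟫) (p := fun s => ⟪J s, J' s⟫)
    (q := fun s => ⟪J' s, J' s⟫) (L := ⟪e, e⟫)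
    (fun s => ((d1 s).inner ℝ (d1 s)).congr_deriv (by
      have := sk s (J s) (J s)
      rw [inner_sub_right, inner_sub_left, real_inner_comm (J s) (J' s)]
      linarith))
    (fun s => ⟨_, (d1 s).inner ℝ (d2 s), by
      have h1 := sk s (J s) (J' s)
      have h2 := u (m.Z s (y, b)).1 (J s) (m.Z s (y, b)).2
      rw [inner_sub_right, inner_sub_left, inner_neg_right,
        real_inner_comm (m.K _ _ _ _) (J s)]
      linarith⟩)
    (fun s l => by
      have h : 0 ≤ ⟪J' s - l • J s, J' s - l • J s⟫ := real_inner_self_nonneg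
      simp only [inner_sub_left, inner_sub_right, real_inner_smul_left, real_inner_smul_right,
        real_inner_comm (J s) (J' s)] at h
      refine h.trans (le_of_eq ?_)
      ring)
    (by simp [e0]) (by simp [e0]) (by
      have a1 := (hasDerivAt_iff_tendsto_slope.1 (d1 0)).mono_left (nhdsGT_le_nhdsNE 0)
      rw [e0, e1, map_zero, sub_zero] at a1
      refine (a1.inner (𝕜 := ℝ) a1).congr fun s => ?_
      rw [slope_def_module, e0, sub_zero, sub_zero, real_inner_smul_left, real_inner_smul_right]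
      ring)
  rw [real_inner_self_eq_norm_sq, real_inner_self_eq_norm_sq] at key
  exact (sq_le_sq₀ (norm_nonneg _) (norm_nonneg _)).1 key

variable {h : Met 3} {C : TB.Chr 3} {Ψ : ℝ → UT h → UT h}

theorem exb0 (r : Riem h) (o : m.OK) (j : m.Jac) (k : Lk h C Ψ m) (u : m.Up 0) : ExB m := by
  refine ⟨fun y => ?_, exp0 o j u⟩
  have c1 : ContDiff ℝ 1 (m.Z 1) := o.cZ.comp (contDiff_const.prodMk contDiff_id)
  have c2 : ContDiff ℝ 1 fun ξ : V => (m.Z 1 (y, m.S y ξ)).1 :=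
    (c1.comp (contDiff_const.prodMk (m.S y).contDiff)).fst
  obtain ⟨σ, -, s2, s3⟩ := TB.sec 3 (fun ξ : V => (m.Z 1 (y, m.S y ξ)).1)
    (TB.ray 3 h y _ r fun ξ => ⟨_, c2.contDiffAt.hasStrictFDerivAt one_ne_zero, fun η => by
      have dZ := (c1.differentiable one_ne_zero (y, m.S y ξ)).hasFDerivAt
      have h0 : HasFDerivAt (fun ξ : V => (y, m.S y ξ))
          ((ContinuousLinearMap.inr ℝ V V).comp (m.S y)) ξ :=
        (hasFDerivAt_prodMk_right y (m.S y ξ)).comp ξ (m.S y).hasFDerivAt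
      have h1 := (dZ.comp ξ h0).fst
      have h2 : fderiv ℝ (fun ξ : V => (m.Z 1 (y, m.S y ξ)).1) ξ η =
          (fderiv ℝ (m.Z 1) (y, m.S y ξ) (0, m.S y η)).1 :=
        DFunLike.congr_fun h1.fderiv η
      rw [HEXB.sq o k, HEXB.sq o k, h2]
      exact pow_le_pow_left₀ (norm_nonneg _) (exp0 o j u y (m.S y ξ) (m.S y η)) 2⟩)
  refine ⟨fun b b' hb => ?_, fun x => ⟨m.S y (σ x), s3 x⟩⟩
  have h1 := s2 (m.R y b)
  have h2 := s2 (m.R y b')
  simp only [o.SR] at h1 h2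
  have h3 : m.R y b = m.R y b' := by
    rw [← h1, ← h2]
    exact congrArg σ hb
  simpa only [o.SR] using congrArg (m.S y) h3

/-- The logarithm, from the sign of the curvature in the frame. -/
theorem had_up {Λ : Type} [Group Λ] [MulAction Λ V] (q : QP h Λ Ψ) (c : TB.IsChr h C) (o : m.OK)
    (j : m.Jac) (k : Lk h C Ψ m) (u : m.Up 0) :
    ∃ lg, m.Had lg ∧ ∀ y z, ‖lg (y, z)‖ = dd h y z := by
  have e := exb0 q.rp.riem o j k u
  obtain ⟨lg, l⟩ := lg_ m o e
  obtain ⟨g1, g2⟩ := grad m lg o j l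
  obtain ⟨d1, d2⟩ := dist_ h C Λ Ψ q c m lg o j k e l
  refine ⟨lg, ⟨l.c1, l.ex, l.xe, g1, fun x y z => ?_, fun y b b' => ?_, g2⟩, d2⟩
  · rw [d2, d2, d2]
    exact q.rp.db.tri x y z
  · rw [d2]
    exact d1 y b b'

/-- The curvature hypothesis in the frame. -/
theorem up0 (o : m.OK) (k : Lk h C Ψ m)
    (hk : ∀ x u v, h x (TB.Rm C x u v v) u ≤ -0 ^ 2 * (h x u u * h x v v - h x u v ^ 2)) :
    m.Up 0 := fun y u v => by
  have := hk y (m.R y u) (m.R y v)
  rw [(k.sec o y u v).1]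
  linarith

/-- Geodesics minimise. -/
theorem minP {lg : V × V → V} (o : m.OK) (j : m.Jac) (k : Lk h C Ψ m) (hl : m.Had lg)
    (hd : ∀ y z, ‖lg (y, z)‖ = dd h y z) : MinP h Ψ := by
  intro p s t
  rw [abs_sub_comm]
  have hn : ‖m.S p.1.1 p.1.2‖ = 1 := by
    have h1 := HEXB.sq o k p.1.1 p.1.2
    rw [p.2] at h1
    exact (sq_eq_sq₀ (norm_nonneg _) zero_le_one).1 (by rw [← h1, one_pow])
  have f1 := k.flow s p
  have f2 := k.flow t p
  set z : V × V := (p.1.1, m.S p.1.1 p.1.2)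
  have h1 := hl.xe (m.Z s z).1 ((t - s) • (m.Z s z).2)
  rw [j.scale, mul_one] at h1
  simp only [Prod.mk.eta] at h1
  rw [← o.add, sub_add_cancel] at h1
  have h2 := congrArg norm h1
  rw [norm_smul, j.norm, hn, mul_one, Real.norm_eq_abs, hd, f1, f2] at h2
  exact h2

/-- The logarithm of a space of nonpositive curvature. -/
def SHAD0 : Prop := On1 fun h C _ _ _ Ψ => ∀ m : MF, m.OK → m.Jac → Lk h C Ψ m → m.Up 0 →
  MinP h Ψ ∧ ∃ lg, m.Had lg ∧ ∀ y z, ‖lg (y, z)‖ = dd h y z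

theorem shad0 : SHAD0 := by
  intro h C Λ _ _ Ψ q c m o j k u
  obtain ⟨lg, hl, hd⟩ := had_up q c o j k u
  exact ⟨minP o j k hl hd, lg, hl, hd⟩

end Pool.Agent.MP_3ee8cb_gt.D3H0
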